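import Pool.Agent.helper53.ORE.Spec

/-!
Row ore:BLW: one long root element is enough.
-/

set_option autoImplicit false

namespace Pool.Agent.ORE

open Module Pool.Agent.GS

theorem BLW (w2 : W2_stmt) : BLW_stmt := by
  intro F V _ _ _ _ _ Q h2 hQ hn y c u d hud hu hd hb hG u' d' hud' hu' hd' hb'
  obtain ⟨g, hg, hgu, hgd⟩ := w2 Q h2 hQ hn u d u' d' hud hud' (by rw [hu, hu']) (by rw [hd, hd'])
    (by rw [hb, hb'])
  have h1 := hG.conj hg
  rw [sq_conj_mem h2 (OmQ_le Q hg) hu hb, hgu, hgd] at h1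
  exact h1

end Pool.Agent.ORE
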