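import Pool.Agent.helper83.ORE.SpecDE

/-!
Row ore:DNM: order divisible by `r` from an eigenvector.
-/

set_option autoImplicit false

namespace Pool.Agent.ORE

open Module Pool.Agent.GS

theorem DNM : DNM_stmt := by
  intro F V M _ _ _ _ Q h2 hv g hg φ h hφ hgh r hr hhr hh1 j c hc
  obtain ⟨v, hv⟩ := hv
  obtain ⟨x, hx⟩ := hφ
  have hgj : g ^ j ∈ OQ Q := (OQ Q).pow_mem hg j
  have h1 : Q v = c ^ 2 * Q v := by
    rw [← Q_smul, ← hc v, hgj.2]
  have h3 : c ^ 2 = 1 := by
    have h4 : (c ^ 2 - 1) * Q v = 0 := by linear_combination -h1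
    rcases mul_eq_zero.1 h4 with h5 | h5
    · exact sub_eq_zero.1 h5
    · exact absurd h5 hv
  have h4 : c = 1 := by
    have h5 : (c - 1) ^ 2 = 0 := by linear_combination h3 - (c - 1) * h2
    exact sub_eq_zero.1 (pow_eq_zero_iff (two_ne_zero) |>.1 h5)
  have h5 : ∀ k : ℕ, φ ((g ^ k) x) = h ^ k * φ x := by
    intro k
    induction k with
    | zero => simp
    | succ k ih =>
      rw [pow_succ' g k, Equiv.Perm.mul_apply, hgh, ih, pow_succ' h k, mul_assoc]
  have h6 : h ^ j = 1 := by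
    have h7 := h5 j
    rw [hc x, h4, one_smul] at h7
    have h8 : (h ^ j - 1) * φ x = 0 := by linear_combination -h7
    rcases mul_eq_zero.1 h8 with h9 | h9
    · exact sub_eq_zero.1 h9
    · exact absurd h9 hx
  have : Fact r.Prime := ⟨hr⟩
  rw [← orderOf_eq_prime hhr hh1]
  exact orderOf_dvd_of_pow_eq_one h6

end Pool.Agent.ORE
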